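import Pool.Agent.V1180.TPg

/-! MP_2fa8c7_an: for all large `σc` the statements Q1 and Q2 cannot both be true. -/

open MeasureTheory Set Filter Topology Metric
open scoped ContDiff

namespace Pool.Agent.Results.MP_2fa8c7_an.NotBoth

open Pool.Agent.V1180.TP

/-- `Ω` solves the outer problem for the core `D` and the volume `V0` -/
def IsOuterSolution {N : ℕ} (σc : ℝ) (D : Set (E N)) (V0 : ℝ) (Ω : Set (E N)) : Prop :=
  IsSolution σc D Ω ∧ volume Ω = ENNReal.ofReal V0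

/-- `Vs ≥ |D|`, and for every `V0 > Vs` the outer problem for `D` and `V0` has exactly one
solution -/
def UniqueAbove {N : ℕ} (σc : ℝ) (D : Set (E N)) (Vs : ℝ) : Prop :=
  (volume D).toReal ≤ Vs ∧ ∀ V0, Vs < V0 → ∃! Ω, IsOuterSolution σc D V0 Ω

/-- the statement of Q1 for `σc` -/
def Q1Holds (N : ℕ) (σc : ℝ) : Prop :=
  ∀ D : Set (E N), IsSmoothDomain D → ∃ Vs, UniqueAbove σc D Vs

/-- `V*(D)` -/
noncomputable def VStar {N : ℕ} (σc : ℝ) (D : Set (E N)) : ℝ :=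
  sInf {Vs | UniqueAbove σc D Vs}

/-- the statement of Q2 for `σc` -/
def Q2Holds (N : ℕ) (σc : ℝ) : Prop :=
  ∀ D : Set (E N), IsSmoothDomain D → (∀ x r, D ≠ ball x r) → (∃ Vs, UniqueAbove σc D Vs) →
    (volume D).toReal < VStar σc D ∧
    ∀ ε > 0, ∃ η > 0, ∀ V0, VStar σc D < V0 → V0 < VStar σc D + η →
      ∀ Ω, IsOuterSolution σc D V0 Ω → ∃ x ∈ frontier D, ∃ y ∈ frontier Ω, dist x y < ε

theorem main {k : ℕ} (hk : 1 ≤ k) :
    ∃ σs : ℝ, 1 ≤ σs ∧ ∀ σc : ℝ, σs < σc → ∃ D : Set (E (k+1)), IsSmoothDomain D ∧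
      (∀ x r, D ≠ ball x r) ∧ ∃ V₁ δ : ℝ, (volume D).toReal < V₁ ∧ 0 < δ ∧
        (∃ Ω₁ Ω₂, Ω₁ ≠ Ω₂ ∧ IsOuterSolution σc D V₁ Ω₁ ∧ IsOuterSolution σc D V₁ Ω₂) ∧
        ∀ Vs, UniqueAbove σc D Vs → V₁ ≤ Vs ∧ ∀ V0, Vs < V0 → ∀ Ω,
          IsOuterSolution σc D V0 Ω → ∀ x ∈ frontier D, ∀ y ∈ frontier Ω, δ ≤ dist x y := by
  have hN : 2 ≤ k + 1 := by omega
  obtain ⟨σs, hσs, hcore⟩ := exists_core hk
  refine ⟨σs, hσs, fun σc hσc => ?_⟩
  have hσ : 0 < σc := by linarith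
  obtain ⟨R, A, a, b, h1a, hab, hbR, hpow, hmR, hI⟩ := hcore σc hσc
  have hR0 : 0 < R := by linarith
  have hb0 : 0 < b := by linarith
  have hfin : Module.finrank ℝ (E (k+1)) = k + 1 := by simp
  set vb := (volume (ball (0 : E (k+1)) 1)).toReal with hvb
  have hVt : volume (ball (0 : E (k+1)) 1) ≠ ⊤ := measure_ball_lt_top.ne
  have hvb0 : 0 < vb := ENNReal.toReal_pos (measure_ball_pos volume _ one_pos).ne' hVt
  have hvbe : volume (ball (0 : E (k+1)) 1) = ENNReal.ofReal vb := (ENNReal.ofReal_toReal hVt).symm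
  have hball : ∀ r, 0 ≤ r → volume (ball (0 : E (k+1)) r) = ENNReal.ofReal (r ^ (k+1) * vb) := by
    intro r hr
    rw [Measure.addHaar_ball _ _ hr, hfin, hvbe, ENNReal.ofReal_mul (by positivity)]
  have hcb : volume (closedBall (0 : E (k+1)) 1) = ENNReal.ofReal vb := by
    rw [Measure.addHaar_closedBall _ _ zero_le_one, hvbe]
    simp
  have hroot : ∀ v : ℝ, 0 ≤ v → ∃ r : ℝ, 0 ≤ r ∧ r ^ (k+1) = v := by
    intro v hv
    refine ⟨v ^ ((1:ℝ) / ((k+1 : ℕ) : ℝ)), by positivity, ?_⟩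
    rw [one_div]
    exact Real.rpow_inv_natCast_pow hv (by omega)
  have hRp : 1 ≤ R ^ (k+1) := one_le_pow₀ (by linarith)
  obtain ⟨r1, hr10, hr1⟩ := hroot (R ^ (k+1) - 1) (by linarith)
  have hbr1 : b < r1 := lt_of_pow_lt_pow_left₀ (k+1) hr10 (by rw [hr1]; exact hpow)
  have hcD : IsConnected (Ann (k+1) a b) := connected_Ann hN (by linarith) hab
  have hs1 : IsSolution σc (Ann (k+1) a b) (Ann (k+1) 1 R) := by
    refine core hN hσ (by linarith) hab h1a hbR (Or.inr one_pos) (Or.inr one_pos) ?_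
      (fun _ => hmR) hcD (connected_Ann hN zero_le_one (by linarith))
    intro _
    rw [w_integral hσ h1a hab hbR]
    exact hI
  have hs2 : ∀ r, b < r → IsSolution σc (Ann (k+1) a b) (Ann (k+1) (-1) r) := fun r hr => by
    refine core (A := 0) hN hσ (by linarith) hab (by linarith) hr (Or.inl rfl)
      (Or.inl (by norm_num)) (fun h => absurd h (by norm_num)) (fun h => absurd h (by norm_num))
      hcD (connected_ball' (by linarith))
  have hv1 : volume (Ann (k+1) 1 R) = ENNReal.ofReal ((R ^ (k+1) - 1) * vb) := by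
    have hun : ball (0 : E (k+1)) R = Ann (k+1) 1 R ∪ closedBall 0 1 := by
      ext x
      simp only [mem_ball_zero_iff, mem_union, mem_closedBall_zero_iff]
      constructor
      · intro h
        rcases le_or_gt ‖x‖ 1 with h' | h'
        · exact Or.inr h'
        · exact Or.inl ⟨h', h⟩
      · rintro (h | h)
        · exact h.2
        · linarith
    have hdis : Disjoint (Ann (k+1) 1 R) (closedBall (0 : E (k+1)) 1) := by
      rw [Set.disjoint_left]
      intro x hx hx'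
      rw [mem_closedBall_zero_iff] at hx'
      exact absurd hx.1 (not_lt.2 hx')
    have hvol : volume (Ann (k+1) 1 R) + ENNReal.ofReal vb =
        ENNReal.ofReal ((R ^ (k+1) - 1) * vb) + ENNReal.ofReal vb := by
      rw [← ENNReal.ofReal_add (mul_nonneg (by linarith) hvb0.le) hvb0.le]
      have e : (R ^ (k+1) - 1) * vb + vb = R ^ (k+1) * vb := by ring
      rw [e, ← hball R hR0.le, hun, measure_union hdis measurableSet_closedBall, hcb]
    exact (ENNReal.add_left_inj ENNReal.ofReal_ne_top).1 hvol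
  have hv2 : ∀ r, 0 ≤ r → volume (Ann (k+1) (-1) r) = ENNReal.ofReal (r ^ (k+1) * vb) := by
    intro r hr
    rw [Ann_neg, hball r hr]
  have ho1 : IsOuterSolution σc (Ann (k+1) a b) ((R ^ (k+1) - 1) * vb) (Ann (k+1) 1 R) :=
    ⟨hs1, hv1⟩
  have ho2 : IsOuterSolution σc (Ann (k+1) a b) ((R ^ (k+1) - 1) * vb) (Ann (k+1) (-1) r1) :=
    ⟨hs2 r1 hbr1, by rw [hv2 r1 hr10, hr1]⟩
  have hne : Ann (k+1) 1 R ≠ Ann (k+1) (-1) r1 := by
    intro h
    have h0 : (0 : E (k+1)) ∈ Ann (k+1) (-1) r1 := by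
      refine ⟨?_, ?_⟩ <;> rw [norm_zero] <;> linarith
    rw [← h] at h0
    have := h0.1
    rw [norm_zero] at this
    linarith
  refine ⟨Ann (k+1) a b, hs1.1, ?_, (R ^ (k+1) - 1) * vb, r1 - b, ?_, by linarith,
    ⟨_, _, hne, ho1, ho2⟩, ?_⟩
  · intro x r hD
    set y : E (k+1) := EuclideanSpace.single (0 : Fin (k+1)) ((a + b) / 2) with hy
    have hyn : ‖y‖ = (a + b) / 2 := by
      rw [hy]
      simp only [PiLp.norm_single, Real.norm_eq_abs]
      exact abs_of_pos (by linarith)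
    have hy1 : y ∈ Ann (k+1) a b := ⟨by rw [hyn]; linarith, by rw [hyn]; linarith⟩
    have hy2 : -y ∈ Ann (k+1) a b :=
      ⟨by rw [norm_neg, hyn]; linarith, by rw [norm_neg, hyn]; linarith⟩
    rw [hD] at hy1 hy2
    have h0 := (convex_ball x r) hy1 hy2 (by norm_num : (0:ℝ) ≤ 1 / 2)
      (by norm_num : (0:ℝ) ≤ 1 / 2) (by norm_num)
    have e : (1 / 2 : ℝ) • y + (1 / 2 : ℝ) • (-y) = 0 := by
      rw [smul_neg, add_neg_cancel]
    rw [e, ← hD] at h0
    have := h0.1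
    rw [norm_zero] at this
    linarith
  · have h1 : volume (Ann (k+1) a b) ≤ ENNReal.ofReal (b ^ (k+1) * vb) := by
      rw [← hball b hb0.le]
      refine measure_mono fun x hx => ?_
      rw [mem_ball_zero_iff]
      exact hx.2
    have h2 : (volume (Ann (k+1) a b)).toReal ≤ b ^ (k+1) * vb := by
      have := ENNReal.toReal_mono ENNReal.ofReal_ne_top h1
      rwa [ENNReal.toReal_ofReal (by positivity)] at this
    have h3 : b ^ (k+1) * vb < (R ^ (k+1) - 1) * vb := mul_lt_mul_of_pos_right hpow hvb0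
    linarith
  · intro Vs hVs
    have hle : (R ^ (k+1) - 1) * vb ≤ Vs := by
      by_contra hcon
      obtain ⟨Ω, -, hu⟩ := hVs.2 _ (not_le.1 hcon)
      exact hne ((hu _ ho1).trans (hu _ ho2).symm)
    refine ⟨hle, fun V0 hV0 Ω hΩ x hx y hy => ?_⟩
    have hV0' : (R ^ (k+1) - 1) * vb < V0 := lt_of_le_of_lt hle hV0
    have hV00 : 0 ≤ V0 := le_trans (mul_nonneg (by linarith) hvb0.le) hV0'.le
    obtain ⟨r, hr0, hr⟩ := hroot (V0 / vb) (by positivity)
    have hrV : r ^ (k+1) * vb = V0 := by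
      rw [hr]; field_simp
    have hr1r : r1 < r := by
      refine lt_of_pow_lt_pow_left₀ (k+1) hr0 ?_
      rw [hr1, hr, lt_div_iff₀ hvb0]
      exact hV0'
    have hsol : IsOuterSolution σc (Ann (k+1) a b) V0 (Ann (k+1) (-1) r) :=
      ⟨hs2 r (by linarith), by rw [hv2 r hr0, hrV]⟩
    have heq : Ω = Ann (k+1) (-1) r := (hVs.2 V0 hV0).unique hΩ hsol
    rw [heq] at hy
    have hyn : ‖y‖ = r := by
      rcases frontier_Ann hy with h | h
      · have := norm_nonneg y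
        linarith
      · exact h
    have hxn : ‖x‖ ≤ b := by
      rcases frontier_Ann hx with h | h <;> linarith
    have hd : ‖y‖ - ‖x‖ ≤ dist x y := by
      rw [dist_comm, dist_eq_norm]
      exact norm_sub_norm_le y x
    linarith

/-- For every `N ≥ 2` there is `σs ≥ 1` such that for every `σc > σs`:
(a) there are a core `D`, not a ball, a volume `V₁ > |D|` and `δ > 0` such that the outer
problem for `D` and `V₁` has two different solutions, and whenever `Vs` has the property in Q1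
for `D`, then `Vs ≥ V₁` and all solutions of volume greater than `Vs` have boundary at distance
at least `δ` from `∂D`;
(b) consequently Q1 and Q2 cannot both hold. -/
theorem result (N : ℕ) (hN : 2 ≤ N) :
    ∃ σs : ℝ, 1 ≤ σs ∧ ∀ σc : ℝ, σs < σc →
      (∃ D : Set (E N), IsSmoothDomain D ∧
        (∀ x r, D ≠ ball x r) ∧ ∃ V₁ δ : ℝ, (volume D).toReal < V₁ ∧ 0 < δ ∧
          (∃ Ω₁ Ω₂, Ω₁ ≠ Ω₂ ∧ IsOuterSolution σc D V₁ Ω₁ ∧ IsOuterSolution σc D V₁ Ω₂) ∧
          ∀ Vs, UniqueAbove σc D Vs → V₁ ≤ Vs ∧ ∀ V0, Vs < V0 → ∀ Ω,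
            IsOuterSolution σc D V0 Ω → ∀ x ∈ frontier D, ∀ y ∈ frontier Ω, δ ≤ dist x y) ∧
      ¬ (Q1Holds N σc ∧ Q2Holds N σc) := by
  obtain ⟨k, rfl⟩ : ∃ k, N = k + 1 := ⟨N - 1, by omega⟩
  obtain ⟨σs, hσs, h⟩ := main (k := k) (by omega)
  refine ⟨σs, hσs, fun σc hσc => ⟨h σc hσc, ?_⟩⟩
  rintro ⟨hQ1, hQ2⟩
  obtain ⟨D, hD, hnb, V₁, δ, hV₁, hδ, -, hU⟩ := h σc hσc
  obtain ⟨-, hdist⟩ := hQ2 D hD hnb (hQ1 D hD)
  obtain ⟨η, hη, hη'⟩ := hdist δ hδ
  have hlt : sInf {Vs | UniqueAbove σc D Vs} < VStar σc D + η / 2 := by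
    have : VStar σc D = sInf {Vs | UniqueAbove σc D Vs} := rfl
    linarith
  obtain ⟨Vs, hVs, hVlt⟩ := exists_lt_of_csInf_lt (hQ1 D hD) hlt
  obtain ⟨Ω, hΩ, -⟩ := hVs.2 _ hVlt
  obtain ⟨x, hx, y, hy, hxy⟩ := hη' (VStar σc D + η / 2) (by linarith) (by linarith) Ω hΩ
  exact absurd ((hU Vs hVs).2 _ hVlt Ω hΩ x hx y hy) (not_le.2 hxy)

end Pool.Agent.Results.MP_2fa8c7_an.NotBoth
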